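import Pool.Agent.Y688.RL.Plane

/-!
# Rendezvous value and maximal average distance of all compact sets between the boundary of the
Reuleaux triangle and the solid Reuleaux triangle

Let `T` be the Reuleaux triangle of width `1`, `∂T` its boundary curve, and let `E` be any compact
set with `∂T ⊆ E ⊆ T`.  Then `a(E) ≤ a(∂T) < b(∂T) = b(E)`; in particular `a(E) < b(E)`, with one and
the same gap for all `E`.  The value `a(E)` decreases as `E` increases, the values `a(E)` fill exactly
the interval `[1/√3, a(∂T)]`, where `a(∂T) ≥ 2/3`, and `a(E) = 1/√3` exactly if `E` contains the centre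
of `T`; in particular `a(T) = 1/√3`.

Proof.  Every point of `T` lies on a segment with both end points on `∂T`, and the distance is convex:
replacing the points of a configuration in `E` by end points of chords gives `b(E) ≤ b(∂T)`, and
(with weights, approximated by rational ones) `a(E) ≤ a(∂T)`; the same argument gives the
monotonicity.  The sum of the distances of a point to the three vertices is at least `√3`, with
equality only at the centre, and at least `2` on `∂T`.  The intermediate values are those of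
`∂T ∪ {x ∈ T | |x - centre| ≥ r}`, which depend on `r` in a Lipschitz continuous way.
-/

set_option autoImplicit false

open Pool.Agent.Helper569.Reul

namespace Pool.Agent.Results.MP_55cb2c_co.BetweenBoundaryAndSolid

/-- Let `v 0, v 1, v 2` be the vertices of an equilateral triangle of side `1` in the Euclidean plane,
`T = reuleaux v` the solid Reuleaux triangle and `∂T = frontier T`.
(1) For every compact `E` with `∂T ⊆ E ⊆ T`: `a(E) ≤ a(∂T) < b(∂T) = b(E)`, hence `a(E) < b(E)`;
`a(E) ≥ 1/√3`, with equality exactly if the centre `(v 0 + v 1 + v 2)/3` lies in `E`.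
(2) `a` decreases: `a(E') ≤ a(E)` for compact `E`, `E'` with `∂T ⊆ E ⊆ E' ⊆ T`.
(3) The values `a(E)` of these compact sets are exactly the numbers in `[1/√3, a(∂T)]`.
(4) `a(T) = 1/√3 < 2/3 ≤ a(∂T)`. -/
theorem result (v : Fin 3 → EuclideanSpace ℝ (Fin 2))
    (hv : ∀ i j, i ≠ j → dist (v i) (v j) = 1) :
    (∀ E : Set (EuclideanSpace ℝ (Fin 2)), IsCompact E →
      frontier (reuleaux v) ⊆ E → E ⊆ reuleaux v →
        rendezvous E ≤ rendezvous (frontier (reuleaux v)) ∧
        rendezvous (frontier (reuleaux v)) < maxAvg (frontier (reuleaux v)) ∧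
        maxAvg E = maxAvg (frontier (reuleaux v)) ∧
        rendezvous E < maxAvg E ∧
        1 / √3 ≤ rendezvous E ∧
        (rendezvous E = 1 / √3 ↔ (1 / 3 : ℝ) • (v 0 + v 1 + v 2) ∈ E)) ∧
    (∀ E E' : Set (EuclideanSpace ℝ (Fin 2)), IsCompact E → IsCompact E' →
      frontier (reuleaux v) ⊆ E → E ⊆ E' → E' ⊆ reuleaux v → rendezvous E' ≤ rendezvous E) ∧
    (∀ t : ℝ, (∃ E : Set (EuclideanSpace ℝ (Fin 2)), IsCompact E ∧
      frontier (reuleaux v) ⊆ E ∧ E ⊆ reuleaux v ∧ rendezvous E = t) ↔
        1 / √3 ≤ t ∧ t ≤ rendezvous (frontier (reuleaux v))) ∧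
    rendezvous (reuleaux v) = 1 / √3 ∧ 1 / √3 < (2 / 3 : ℝ) ∧
    2 / 3 ≤ rendezvous (frontier (reuleaux v)) := by
  have hmain := main v hv
  have h1 : ∀ E : Set (EuclideanSpace ℝ (Fin 2)), IsCompact E →
      frontier (reuleaux v) ⊆ E → E ⊆ reuleaux v →
        rendezvous E ≤ rendezvous (frontier (reuleaux v)) := fun E hE h2 h3 =>
    Y688.RL.anti v (Y688.RL.compact_frontier v) subset_rfl h2 h3
  refine ⟨?_, ?_, ?_, ?_, ?_, Y688.RL.frontier_ge hv⟩
  · intro E hE h2 h3
    have hb : maxAvg E = maxAvg (frontier (reuleaux v)) :=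
      Y688.RL.maxAvg_eq hE.isBounded
        ((Y688.RL.chord_frontier (Y688.RL.compact_reuleaux v)).mono subset_rfl h3) h2
    refine ⟨h1 E hE h2 h3, hmain.1, hb, ?_, Y688.RL.ge_any hv hE h2,
      Y688.RL.eq_iff hv hE h2 h3⟩
    rw [hb]
    exact (h1 E hE h2 h3).trans_lt hmain.1
  · intro E E' hE _ h2 h3 h4
    exact Y688.RL.anti v hE h2 h3 h4
  · intro t
    constructor
    · rintro ⟨E, hE, h2, h3, rfl⟩
      exact ⟨Y688.RL.ge_any hv hE h2, h1 E hE h2 h3⟩
    · rintro ⟨h2, h3⟩
      exact Y688.RL.values hv h2 h3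
  · exact (Y688.RL.eq_iff hv (Y688.RL.compact_reuleaux v) (Y688.RL.frontier_sub v) subset_rfl).2
      (Y688.RL.ctr_mem hv)
  · rw [div_lt_div_iff₀ (by positivity) (by norm_num)]
    have : (3 / 2 : ℝ) < √3 := by
      rw [Real.lt_sqrt (by norm_num)]; norm_num
    linarith

end Pool.Agent.Results.MP_55cb2c_co.BetweenBoundaryAndSolid
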