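import Pool.Agent.Helper569.ReulTransfer
import Pool.Agent.Y173.RV.Super

set_option autoImplicit false

open Set Metric Pool.Agent.Helper569.Reul Pool.Agent.Y173.RV

namespace Pool.Agent.Results.MP_55cb2c_co.BoundarySupersets

/-- Here `rendezvous E` is `a(E)`, `maxAvg E` is `b(E)`, and `reuleaux v` is the solid Reuleaux
triangle of width `1` with vertices `v 0, v 1, v 2`.

* `a(T) < b(T)` for the Reuleaux triangle `T` (the answer to Q1);
* `a(E) < b(E)` for **every** compact set `E` in the plane which contains the boundary curve `∂T`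
  (`E = T` and `E = ∂T` are two cases);
* the reason for `E ≠ ∂T`: if `E` is a compact set in a real inner product space and some point of
  `E` is not an extreme point of the convex hull of `E`, then `a(E) < b(E)` if and only if `E` does
  not lie in a line. -/
theorem result :
    (∀ v : Fin 3 → EuclideanSpace ℝ (Fin 2), (∀ i j, i ≠ j → dist (v i) (v j) = 1) →
      rendezvous (reuleaux v) < maxAvg (reuleaux v)) ∧
    (∀ v : Fin 3 → EuclideanSpace ℝ (Fin 2), (∀ i j, i ≠ j → dist (v i) (v j) = 1) →
      ∀ E : Set (EuclideanSpace ℝ (Fin 2)), IsCompact E → frontier (reuleaux v) ⊆ E →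
        rendezvous E < maxAvg E) ∧
    (∀ (V : Type) [NormedAddCommGroup V] [InnerProductSpace ℝ V] (E : Set V), IsCompact E →
      ¬ E ⊆ (convexHull ℝ E).extremePoints ℝ →
        (rendezvous E < maxAvg E ↔ ¬ Collinear ℝ E)) := by
  have hcpt : ∀ v : Fin 3 → EuclideanSpace ℝ (Fin 2), IsCompact (reuleaux v) := fun v =>
    (isCompact_closedBall (v 0) 1).of_isClosed_subset reul_closed (iInter_subset _ 0)
  have h2 : ∀ v : Fin 3 → EuclideanSpace ℝ (Fin 2), (∀ i j, i ≠ j → dist (v i) (v j) = 1) →
      ∀ E : Set (EuclideanSpace ℝ (Fin 2)), IsCompact E → frontier (reuleaux v) ⊆ E →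
        rendezvous E < maxAvg E := by
    intro v hv E hE hsub
    by_cases h : E = frontier (reuleaux v)
    · rw [h]
      exact (main v hv).1
    · exact super_lt (by rw [finrank_euclideanSpace_fin]) (hcpt v) ⟨_, reul_mid hv⟩ hE hsub h
  exact ⟨fun v hv => h2 v hv _ (hcpt v) reul_closed.frontier_subset, h2,
    fun V _ _ E hE h => lt_iff hE h⟩

end Pool.Agent.Results.MP_55cb2c_co.BoundarySupersets
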